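import Pool.Agent.Helper17.R12.FIN
import Pool.Agent.Helper58.RS.GEN
import Pool.Agent.Helper44.R8.VIE
import Pool.Agent.Helper44.R8.RANKQ
import Pool.Agent.Helper44.R8.DDIV
import Pool.Agent.Helper95.R8.PT
import Pool.Agent.Helper53.R8.Curve
import Pool.Agent.Helper25.R8.LINZ
import Pool.Agent.Helper61.R9.ROOT
import Pool.Agent.Helper44.R9.SV1
import Pool.Agent.Helper61.R9.SV3
import Pool.Agent.Helper72.R9.SV9
import Pool.Agent.Helper29.R9.PR9
import Pool.Agent.Helper17.R9.FIN9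
import Pool.Agent.Helper66.R9.RES
import Pool.Agent.Helper2.R9.RES2
import Pool.Agent.Helper25.R9.EKL
import Pool.Agent.Helper76.R9.LEAD
import Pool.Agent.Helper84.R9.BD9
import Pool.Agent.Helper76.R9.CUBP
import Pool.Agent.Helper95.R12.BND
import Pool.Agent.Helper29.R12.PAIR
import Pool.Agent.Helper25.R12.INJ
import Pool.Agent.Helper72.R12.SIEVE
import Pool.Agent.Helper28.R12.PTS
import Pool.Agent.Helper30.R12.REL
import Pool.Agent.Helper46.R12.CERT

set_option autoImplicit false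

namespace Pool.Helper67.R12

open Pool.Helper17.R8 (st_VIE st_PT st_DDIV st_LINZ st_RANKQ)
open Pool.Helper34.R9

/-- Rank twelve: `N_12(H) ≥ c H ^ (1/10)`. -/
theorem rank_twelve : ST_FIN :=
  st_FIN (st_CERT st_REL (st_PTS st_VIE st_PT (st_CUBP st_PT) st_REL) st_RANKQ)
    (st_BND st_REL st_BD9)
    (st_SIEVE st_REL (st_SV9 st_ROOT (st_SV1 st_DDIV) (st_SV3 st_ROOT)) st_EKL st_LEAD st_RES1
      st_RES2 st_RES3 st_BD9)
    (st_PAIR st_REL (st_PR9 Pool.Agent.Helper53.R8.curve) (st_INJ st_LINZ st_VIE st_REL))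
    st_FIN9 Pool.Helper17.RS.st_GEN

end Pool.Helper67.R12
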