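import Mathlib
import Pool.Agent.Helper97.RK.Stmts
import Pool.Agent.Helper17.RS.Sheet
import Pool.Agent.Helper17.R8.Sheet
import Pool.Agent.Helper34.R9.Sheet

/-! # Numbers for `N_12(H) ≥ c H ^ (1/10)` (MP_798d7d_nt); the general rows are in `Helper34/R9/Sheet.lean`

THE THREE PARAMETERS.  `s = ss u` (linear forms, `∑ s_i = 0`, ninth point `s = 0`) is a linear space on
which nine of the 135 rational bisections (lines through a point and conics through four of the nine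
points, all through the cusp) are defined over the same quadratic extension `4 t = e₃² - z²`.
CONICS.  For a partition of the eight `s_i` into four and four with elementary symmetric functions
`σ`, `τ` (`τ₁ = - σ₁`) the conic through the first four points and the cusp meets the member in the
point `(σ₁ y + κ : y : - (y² + (2 σ₁ σ₂ - σ₃) y + σ₂ κ))`, `κ = σ₄ - σ₁ σ₃ + σ₁² σ₂`, if
`- t = (y + σ₁ σ₂ - σ₃) (y + σ₁ σ₂ + τ₃) + σ₄ (σ₂ - τ₂)` (`chk_con`), that is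
`4 t = (σ₃ + τ₃)² - 4 σ₄ (σ₂ - τ₂) - z²`, `z = 2 y + 2 σ₁ σ₂ - σ₃ + τ₃`.  On our space
`(σ₃ + τ₃)² - 4 σ₄ (σ₂ - τ₂) = e₃²` for the four partitions `pm 0, .., pm 3` (`chk_E`).
Together with the eight points of `Helper17/R8/Sheet.lean`: twelve independent points.
-/

set_option autoImplicit false

namespace Pool.Helper67.R12

open Pool.Agent.Helper97.RK (cur)
open Pool.Helper17.RS (RS NR ST_GEN)
open Pool.Helper17.R8 (ek q4 q3 q2 q1 q0 fI fJ yv y9 xX pI pJ)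
open Pool.Helper34.R9 (Box FF wF fJh rho)
open Polynomial

section
variable {R : Type*} [CommRing R]

/-- the eight linear forms -/
def ss (u : Fin 3 → R) : Fin 8 → R :=
  ![-4 * u 0 - u 1, -3 * u 0 + 3 * u 1, 2 * u 0 - u 2, 6 * u 0 + 2 * u 2, -2 * u 0 - 2 * u 2,
    6 * u 0 + u 2, -3 * u 1, -5 * u 0 + u 1]

/-- the four partitions (the first four and the last four indices) -/
def pm (k : Fin 4) : Fin 8 → Fin 8 :=
  if k = 0 then ![0, 1, 2, 3, 4, 5, 6, 7] else if k = 1 then ![0, 1, 4, 5, 2, 3, 6, 7]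
  else if k = 2 then ![0, 3, 4, 6, 1, 2, 5, 7] else ![1, 3, 4, 7, 0, 2, 5, 6]

/-- the reference points of the four conics -/
def rf (k : Fin 4) : Fin 8 := if k = 3 then 0 else 7

/-- elementary symmetric functions of four elements -/
def c1 (a b c d : R) : R := a + b + c + d
def c2 (a b c d : R) : R := a * b + a * c + a * d + b * c + b * d + c * d
def c3 (a b c d : R) : R := a * b * c + a * b * d + a * c * d + b * c * d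
def c4 (a b c d : R) : R := a * b * c * d

def sg1 (s : Fin 8 → R) (k : Fin 4) : R := c1 (s (pm k 0)) (s (pm k 1)) (s (pm k 2)) (s (pm k 3))
def sg2 (s : Fin 8 → R) (k : Fin 4) : R := c2 (s (pm k 0)) (s (pm k 1)) (s (pm k 2)) (s (pm k 3))
def sg3 (s : Fin 8 → R) (k : Fin 4) : R := c3 (s (pm k 0)) (s (pm k 1)) (s (pm k 2)) (s (pm k 3))
def sg4 (s : Fin 8 → R) (k : Fin 4) : R := c4 (s (pm k 0)) (s (pm k 1)) (s (pm k 2)) (s (pm k 3))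
def ta2 (s : Fin 8 → R) (k : Fin 4) : R := c2 (s (pm k 4)) (s (pm k 5)) (s (pm k 6)) (s (pm k 7))
def ta3 (s : Fin 8 → R) (k : Fin 4) : R := c3 (s (pm k 4)) (s (pm k 5)) (s (pm k 6)) (s (pm k 7))
def ta4 (s : Fin 8 → R) (k : Fin 4) : R := c4 (s (pm k 4)) (s (pm k 5)) (s (pm k 6)) (s (pm k 7))
def kap (s : Fin 8 → R) (k : Fin 4) : R := sg4 s k - sg1 s k * sg3 s k + sg1 s k ^ 2 * sg2 s k

/-- `z = 2 y + gg` -/
def gg (s : Fin 8 → R) (k : Fin 4) : R := 2 * sg1 s k * sg2 s k - sg3 s k + ta3 s k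

/-- the point of the conic -/
def kX (s : Fin 8 → R) (k : Fin 4) (y : R) : R := sg1 s k * y + kap s k
def kY (s : Fin 8 → R) (k : Fin 4) (y : R) : R :=
  -(y ^ 2 + (2 * sg1 s k * sg2 s k - sg3 s k) * y + sg2 s k * kap s k)

/-- the conics (identity in the `σ`, `τ`) -/
theorem chk_con (e : ℕ → R) (a1 a2 a3 a4 b2 b3 b4 t y κ : R)
    (hκ : κ = a4 - a1 * a3 + a1 ^ 2 * a2)
    (h2 : e 2 = a2 - a1 ^ 2 + b2) (h3 : e 3 = a3 - a2 * a1 + a1 * b2 + b3)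
    (h4 : e 4 = a4 - a3 * a1 + a2 * b2 + a1 * b3 + b4)
    (h5 : e 5 = -(a4 * a1) + a3 * b2 + a2 * b3 + a1 * b4)
    (h6 : e 6 = a4 * b2 + a3 * b3 + a2 * b4) (h7 : e 7 = a4 * b3 + a3 * b4)
    (h8 : e 8 = a4 * b4) :
    FF e t (a1 * y + κ) y (-(y ^ 2 + (2 * a1 * a2 - a3) * y + a2 * κ)) =
      -(y ^ 4 + (a1 ^ 3 + 2 * a1 * a2 - a3) * y ^ 3 + κ * (3 * a1 ^ 2 + a2) * y ^ 2 +
        κ ^ 2 * (3 * a1) * y + κ ^ 3) *
      (t + (y + (a1 * a2 - a3)) * (y + (a1 * a2 + b3)) + a4 * (a2 - b2)) := by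
  unfold FF
  rw [h2, h3, h4, h5, h6, h7, h8, hκ]
  ring

/-- the third elementary symmetric function of the eight forms -/
def E3 (u : Fin 3 → R) : R :=
  c3 (ss u 0) (ss u 1) (ss u 2) (ss u 3) +
    c2 (ss u 0) (ss u 1) (ss u 2) (ss u 3) * c1 (ss u 4) (ss u 5) (ss u 6) (ss u 7) +
    c1 (ss u 0) (ss u 1) (ss u 2) (ss u 3) * c2 (ss u 4) (ss u 5) (ss u 6) (ss u 7) +
    c3 (ss u 4) (ss u 5) (ss u 6) (ss u 7)

/-- the four partitions belong to the same quadratic extension -/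
theorem chk_E (u : Fin 3 → R) (k : Fin 4) :
    (sg3 (ss u) k + ta3 (ss u) k) ^ 2 - 4 * sg4 (ss u) k * (sg2 (ss u) k - ta2 (ss u) k) =
      E3 u ^ 2 := by
  fin_cases k <;>
  · simp [E3, sg3, ta3, sg4, sg2, ta2, pm, ss, c1, c2, c3, c4]
    ring
end

/-- the parameters `(u, z)` -/
abbrev Par : Type := (Fin 3 → ℕ) × ℕ

def QQ : ℕ := 1000
def MM : ℤ := 6912 * (Nat.factorial QQ : ℤ)
def ub : Fin 3 → ℤ := ![-5, -13, 12]
/-- the base: `z = 46`, `t = 112783871`, `e 2, .., e 8 = -2185, 21240, 1329408, -23598000, -61838640,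
2977508160, -12329501184` -/
def sb : Fin 8 → ℤ := ![33, -24, -22, -6, -14, -18, 39, 12]

def uu (a : Fin 3 → ℕ) : Fin 3 → ℤ := fun i => ub i + MM * (a i : ℤ)
def sa (a : Fin 3 → ℕ) : Fin 8 → ℤ := ss (uu a)
def zz (T : Par) : ℤ := 46 + MM * (T.2 : ℤ)
def tt (T : Par) : ℤ := (ek (sa T.1) 3 ^ 2 - zz T ^ 2) / 4
def yy (T : Par) (k : Fin 4) : ℤ := (zz T - gg (sa T.1) k) / 2
/-- the values of `yy` at the base -/
def yb : Fin 4 → ℤ := ![-4561, -2029, -9619, 15035]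

def cA (T : Par) : ℤ := (-(fI (ek (sa T.1)) (tt T))) / 48
def cB (T : Par) : ℤ := (-(fJ (ek (sa T.1)) (tt T))) / 1728

/-- the twelve points: `x / v²`, polynomials in `s`, `t` and the `y k` -/
def fx (s : Fin 8 → ℤ) (t : ℤ) (y : Fin 4 → ℤ) (j : Fin 12) : ℤ :=
  if h : (j : ℕ) < 7 then
    3 * xX (ek s) t (s ⟨j, by omega⟩ ^ 2) (yv (ek s) t (s ⟨j, by omega⟩)) (s 7 ^ 2) 1
      (yv (ek s) t (s 7))
  else if (j : ℕ) = 7 then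
    3 * xX (ek s) t (s 0 ^ 2) (yv (ek s) t (s 0)) (-(ek s 8)) t (y9 (ek s) t)
  else
    let k : Fin 4 := ⟨(j : ℕ) - 8, by omega⟩
    3 * xX (ek s) t (s (rf k) ^ 2) (yv (ek s) t (s (rf k))) (kY s k (y k) * y k)
      (kX s k (y k) * y k) (wF (ek s) t (kX s k (y k)) (y k) (kY s k (y k)))
def fv (s : Fin 8 → ℤ) (t : ℤ) (y : Fin 4 → ℤ) (j : Fin 12) : ℤ :=
  if h : (j : ℕ) < 7 then 6 * (s ⟨j, by omega⟩ ^ 2 - s 7 ^ 2)
  else if (j : ℕ) = 7 then 6 * (s 0 ^ 2 * t + ek s 8)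
  else
    let k : Fin 4 := ⟨(j : ℕ) - 8, by omega⟩
    6 * (s (rf k) ^ 2 * (kX s k (y k) * y k) - kY s k (y k) * y k)
def px (T : Par) (j : Fin 12) : ℤ := fx (sa T.1) (tt T) (yy T) j
def pv (T : Par) (j : Fin 12) : ℤ := fv (sa T.1) (tt T) (yy T) j

/-! ## The rows -/

/-- REL: the quotients are exact, and everything is congruent to the base modulo `QQ!`. -/
def ST_REL : Prop := ∀ T : Par,
  4 * tt T = ek (sa T.1) 3 ^ 2 - zz T ^ 2 ∧ (∀ k, 2 * yy T k = zz T - gg (sa T.1) k) ∧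
  48 * cA T = -(fI (ek (sa T.1)) (tt T)) ∧ 1728 * cB T = -(fJ (ek (sa T.1)) (tt T)) ∧
  (∀ i, ((QQ.factorial : ℕ) : ℤ) ∣ sa T.1 i - sb i) ∧
  ((QQ.factorial : ℕ) : ℤ) ∣ tt T - 112783871 ∧
  (∀ k, ((QQ.factorial : ℕ) : ℤ) ∣ yy T k - yb k) ∧
  ((QQ.factorial : ℕ) : ℤ) ∣ cA T - (-4377541490977117787119897) ∧
  ((QQ.factorial : ℕ) : ℤ) ∣ cB T - 3555673705654245650846984137269176689

/-- PTS (from `R8.ST_VIE`, `R8.ST_PT`, `R9.ST_CUBP`, REL, `chk_con`, `chk_E`).  `j ≤ 7` as in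
`Helper34/R8/PTS.lean`; the conics: `FF = 0` by `chk_con`, since
`4 (t + (y + p) (y + r) + σ₄ (σ₂ - τ₂)) = 4 t + z² - (σ₃ + τ₃)² + 4 σ₄ (σ₂ - τ₂) = 4 t + z² - e₃²`.
`pv ≠ 0` modulo 19 at the base: `8, 8, 7, 17, 8, 16, 16, 17, 8, 5, 16, 7`. -/
def ST_PTS : Prop := ∀ T : Par, ∀ j : Fin 12, pv T j ≠ 0 ∧
  ∃ y : ℚ, y ^ 2 = ((px T j : ℚ) / (pv T j : ℚ) ^ 2) ^ 3 +
    (cA T : ℚ) * ((px T j : ℚ) / (pv T j : ℚ) ^ 2) + (cB T : ℚ)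

/-- CERT (from REL, PTS, RANKQ).  `gcd(A, B) = 1` at the base (`A`, `B` odd); no root modulo 17; the
characters `(q, x)`: signs of `px j - x (pv j)²` (residues in brackets), `j = 0, .., 11`:
`(13, 10): (-,+,-,-,+,-,-,-,+,+,-,-)` [5 9 11 5 10 11 6 11 4 3 11 8]
`(19, 1): (-,-,+,-,+,+,+,+,-,+,-,-)` [2 2 7 2 5 16 16 17 18 9 14 3]
`(23, 16): (-,+,+,-,-,+,-,+,-,-,+,+)` [10 8 1 17 22 13 19 3 14 5 12 4]
`(23, 17): (+,-,-,+,-,+,-,-,+,-,-,-)` [4 5 21 1 14 12 17 22 12 19 19 15]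
`(29, 21): (-,+,-,-,+,-,+,+,-,-,-,-)` [10 13 17 3 13 8 16 4 19 2 17 18]
`(37, 0): (+,+,+,-,+,-,-,-,+,-,-,-)` [34 33 11 5 1 17 2 17 10 22 5 8]
`(41, 6): (+,+,-,-,+,-,+,+,-,-,+,-)` [8 1 6 15 5 13 32 18 35 35 16 29]
`(41, 17): (+,-,-,+,+,-,-,+,+,+,+,-)` [23 12 13 8 18 30 19 31 8 9 31 22]
`(43, 17): (+,-,+,-,+,-,+,+,+,-,+,-)` [36 18 16 42 23 19 41 17 14 18 15 26]
`(43, 28): (-,+,+,-,+,-,-,+,+,+,-,+)` [27 25 1 29 25 2 32 25 1 38 22 31]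
`(47, 4): (+,-,+,+,+,-,-,+,+,+,+,-)` [4 22 28 28 4 19 46 16 8 16 18 26]
`(47, 14): (+,+,+,-,+,+,-,+,-,+,+,-)` [28 2 37 15 28 9 33 18 45 16 3 13]
(nonsingular over `𝔽₂`). -/
def ST_CERT : Prop := ∀ T : Par,
  4 * cA T ^ 3 + 27 * cB T ^ 2 ≠ 0 ∧
  (∀ q : ℕ, q.Prime → q ≤ QQ → ¬ ((q : ℤ) ∣ cA T ∧ (q : ℤ) ∣ cB T)) ∧
  (12 : Cardinal) ≤ Module.rank ℤ ((cur (cA T) (cB T)).toAffine).Point

/-- BND (from REL, `R9.ST_BD9`). -/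
def ST_BND : Prop := ∃ C : ℤ, 1 ≤ C ∧ ∀ m : ℕ, 1 ≤ m → ∀ T ∈ Box m,
  |cA T| ≤ C * (m : ℤ) ^ 20 ∧ |cB T| ≤ C * (m : ℤ) ^ 30

open Classical in
/-- SIEVE (from REL, `R9.ST_SV9`, `ST_EKL`, `ST_LEAD`, `ST_RES1`, `ST_RES2`, `ST_RES3`, `ST_BD9`):
`Q = QQ`, `d = 30`, `K = 240`, `M = MM`, `κ = 4`, `zb = 46`, `lam = 1728`, `P a = pJ (ek (sa a))`,
`E a = (ek (sa a) 3)²`, `W i j = fJh (ek (polynomials)) 4 (ek 3)²` (`a 0 = X`), `ρ a = rho (ek (sa a))`.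
`W i j` has the coefficient `MM³⁰ · fJh (ek l) 4 ((ek l 3)²)` with `l = ss (1, 0, 0) =
(-4, -3, 2, 6, -2, 6, 0, -5)`, `ek l = 1, 0, -65, 72, 1216, -2448, -3888, 8640, 0`, and
`fJh (ek l) 4 72² = - 2³⁴ · 3¹⁹ · 5`.  `ρ ≠ 0` by RES3 with `p = 7`: there
`pI = t³ + t² + 5 t + 2`, `pJ = 6 t⁵ + 3 t⁴ + 3 t² + 3 t + 5` and
`(6 t⁴ + t³ + 4 t² + 2 t + 2) pI + (6 t² + 4 t + 5) pJ = 1`. -/
def ST_SIEVE : Prop := ∃ m0 : ℕ, ∀ m : ℕ, m0 ≤ m →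
  2 * ((Box m).filter (fun T => ∃ q : ℕ, q.Prime ∧ QQ < q ∧ (q : ℤ) ^ 4 ∣ cA T ∧
    (q : ℤ) ^ 6 ∣ cB T)).card ≤ m ^ 6

/-- INJ (from `R8.ST_LINZ`, `R8.ST_VIE`, REL), as `Helper25/R8/INJ.lean` with `p = 37`.  The base modulo
37: `s = 33, 13, 15, 31, 23, 19, 2, 12` (distinct); the rows (derivatives with respect to
`e 2, .., e 8, t` at `t = 0, 1, 2, 3`): `fI`:
(12, 25, 2, 14, 4, 9, 1, 3), (15, 24, 26, 30, 0, 11, 36, 0), (13, 9, 33, 24, 3, 13, 5, 13), (35, 17, 23, 33, 13, 15, 19, 5); `fJ`: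
(24, 21, 19, 19, 30, 17, 36, 30), (26, 22, 13, 15, 0, 24, 18, 27), (12, 33, 32, 32, 12, 20, 25, 9), (2, 22, 13, 2, 18, 25, 32, 19) (determinant 7 modulo 37). -/
def ST_INJ : Prop := ∀ (a a' : Fin 3 → ℕ) (β : ℤ), (37 : ℤ) ∣ β →
  (∀ τ : ℤ, fI (ek (sa a')) (τ + β) = fI (ek (sa a)) τ ∧
    fJ (ek (sa a')) (τ + β) = fJ (ek (sa a)) τ) → a = a'

open Classical in
/-- PAIR (from REL, `R9.ST_PR9`, INJ); `f = pI`, `g = pJ` over `ℚ`. -/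
def ST_PAIR : Prop := ∀ m : ℕ, 1 ≤ m →
  ((Box m ×ˢ Box m).filter (fun p => cA p.1 = cA p.2 ∧ cB p.1 = cB p.2)).card ≤ 1000 * m ^ 6

/-- FIN (from CERT, BND, SIEVE, PAIR, `R9.ST_FIN9`, ST_GEN) -/
def ST_FIN : Prop := ∃ c : ℝ, 0 < c ∧ ∃ H₀ : ℝ, ∀ H : ℝ, H₀ ≤ H →
  c * H ^ ((1 : ℝ) / 10) ≤ (NR 12 H : ℝ)

end Pool.Helper67.R12
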