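import Mathlib
import Pool.Agent.Helper67.R12.Sheet

/-! # Row PTSB of R12: the four points of the conics -/

set_option autoImplicit false

namespace Pool.Helper67.R12

open Pool.Helper17.R8 (ek q4 q3 q2 q1 q0 fI fJ yv y9 xX pI pJ)
open Pool.Helper34.R9 (Box FF wF fJh rho ST_CUBP)

/-- the points of the conics -/
def ST_PTSB : Prop := ∀ T : Par, ∀ j : Fin 12, 8 ≤ (j : ℕ) → pv T j ≠ 0 ∧
  ∃ y : ℚ, y ^ 2 = ((px T j : ℚ) / (pv T j : ℚ) ^ 2) ^ 3 +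
    (cA T : ℚ) * ((px T j : ℚ) / (pv T j : ℚ) ^ 2) + (cB T : ℚ)

namespace S67

/-- comparison of coefficients -/
theorem coef (e f : Fin 8 → ℤ)
    (h : ∀ x : ℤ, x ^ 8 - e 0 * x ^ 7 + e 1 * x ^ 6 - e 2 * x ^ 5 + e 3 * x ^ 4 - e 4 * x ^ 3 +
      e 5 * x ^ 2 - e 6 * x + e 7 =
      x ^ 8 - f 0 * x ^ 7 + f 1 * x ^ 6 - f 2 * x ^ 5 + f 3 * x ^ 4 - f 4 * x ^ 3 +
      f 5 * x ^ 2 - f 6 * x + f 7) :
    e 0 = f 0 ∧ e 1 = f 1 ∧ e 2 = f 2 ∧ e 3 = f 3 ∧ e 4 = f 4 ∧ e 5 = f 5 ∧ e 6 = f 6 ∧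
      e 7 = f 7 := by
  have h0 := h 0
  have h1 := h 1
  have h2 := h (-1)
  have h3 := h 2
  have h4 := h (-2)
  have h5 := h 3
  have h6 := h (-3)
  have h7 := h 4
  norm_num at h0 h1 h2 h3 h4 h5 h6 h7
  refine ⟨by linarith, by linarith, by linarith, by linarith, by linarith, by linarith,
    by linarith, by linarith⟩

theorem prod_split (s : Fin 8 → ℤ) (k : Fin 4) (x : ℤ) :
    ∏ i, (x - s i) =
      (x ^ 4 - sg1 s k * x ^ 3 + sg2 s k * x ^ 2 - sg3 s k * x + sg4 s k) *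
      (x ^ 4 - c1 (s (pm k 4)) (s (pm k 5)) (s (pm k 6)) (s (pm k 7)) * x ^ 3 +
        ta2 s k * x ^ 2 - ta3 s k * x + ta4 s k) := by
  rw [Fin.prod_univ_eight]
  fin_cases k <;>
  · simp [sg1, sg2, sg3, sg4, ta2, ta3, ta4, pm, c1, c2, c3, c4]
    ring

theorem tau1 (s : Fin 8 → ℤ) (h : ∑ i, s i = 0) (k : Fin 4) :
    c1 (s (pm k 4)) (s (pm k 5)) (s (pm k 6)) (s (pm k 7)) = -(sg1 s k) := by
  rw [Fin.sum_univ_eight] at h
  fin_cases k <;>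
  · simp [sg1, pm, c1]
    linarith

/-- the elementary symmetric functions -/
theorem eks (hV : Pool.Helper17.R8.ST_VIE) (s : Fin 8 → ℤ) (h : ∑ i, s i = 0) (k : Fin 4) :
    ek s 2 = sg2 s k - sg1 s k ^ 2 + ta2 s k ∧
    ek s 3 = sg3 s k - sg2 s k * sg1 s k + sg1 s k * ta2 s k + ta3 s k ∧
    ek s 4 = sg4 s k - sg3 s k * sg1 s k + sg2 s k * ta2 s k + sg1 s k * ta3 s k + ta4 s k ∧
    ek s 5 = -(sg4 s k * sg1 s k) + sg3 s k * ta2 s k + sg2 s k * ta3 s k + sg1 s k * ta4 s k ∧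
    ek s 6 = sg4 s k * ta2 s k + sg3 s k * ta3 s k + sg2 s k * ta4 s k ∧
    ek s 7 = sg4 s k * ta3 s k + sg3 s k * ta4 s k ∧
    ek s 8 = sg4 s k * ta4 s k := by
  have hc := coef ![ek s 1, ek s 2, ek s 3, ek s 4, ek s 5, ek s 6, ek s 7, ek s 8]
    ![sg1 s k - sg1 s k, sg2 s k - sg1 s k ^ 2 + ta2 s k,
      sg3 s k - sg2 s k * sg1 s k + sg1 s k * ta2 s k + ta3 s k,
      sg4 s k - sg3 s k * sg1 s k + sg2 s k * ta2 s k + sg1 s k * ta3 s k + ta4 s k,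
      -(sg4 s k * sg1 s k) + sg3 s k * ta2 s k + sg2 s k * ta3 s k + sg1 s k * ta4 s k,
      sg4 s k * ta2 s k + sg3 s k * ta3 s k + sg2 s k * ta4 s k,
      sg4 s k * ta3 s k + sg3 s k * ta4 s k, sg4 s k * ta4 s k]
    (by
      intro x
      have h1 := hV ℤ s x
      rw [prod_split s k x, tau1 s h k] at h1
      simp only [Matrix.cons_val]
      linear_combination -h1)
  simp only [Matrix.cons_val] at hc
  obtain ⟨-, h2, h3, h4, h5, h6, h7, h8⟩ := hc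
  exact ⟨h2, h3, h4, h5, h6, h7, h8⟩

theorem ek_one (s : Fin 8 → ℤ) : ek s 1 = ∑ i, s i := by
  unfold ek
  rw [Finset.powersetCard_one, Finset.sum_map]
  simp

theorem ss_sum (u : Fin 3 → ℤ) : ∑ i, ss u i = 0 := by
  rw [Fin.sum_univ_eight]
  simp only [ss, Matrix.cons_val]
  ring

theorem root (hV : Pool.Helper17.R8.ST_VIE) (u : Fin 3 → ℤ) (j : Fin 8) :
    (ss u j) ^ 8 + ek (ss u) 2 * (ss u j) ^ 6 - ek (ss u) 3 * (ss u j) ^ 5 +
      ek (ss u) 4 * (ss u j) ^ 4 - ek (ss u) 5 * (ss u j) ^ 3 + ek (ss u) 6 * (ss u j) ^ 2 -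
      ek (ss u) 7 * (ss u j) + ek (ss u) 8 = 0 := by
  have h := hV ℤ (ss u) (ss u j)
  rw [ek_one, ss_sum, Finset.prod_eq_zero (Finset.mem_univ j) (sub_self _)] at h
  linarith

theorem e3_eq (hV : Pool.Helper17.R8.ST_VIE) (u : Fin 3 → ℤ) : ek (ss u) 3 = E3 u := by
  obtain ⟨-, h3, -⟩ := eks hV (ss u) (ss_sum u) 0
  rw [h3]
  have ht := tau1 (ss u) (ss_sum u) 0
  simp only [E3, sg3, sg2, sg1, ta2, ta3] at ht ⊢
  simp only [pm, if_true, Matrix.cons_val] at ht ⊢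
  rw [ht]
  ring

/-- the point lies on the member -/
theorem FF_zero (hV : Pool.Helper17.R8.ST_VIE) (hR : ST_REL) (T : Par) (k : Fin 4) :
    FF (ek (sa T.1)) (tt T) (kX (sa T.1) k (yy T k)) (yy T k) (kY (sa T.1) k (yy T k)) = 0 := by
  obtain ⟨h4t, h2y, -⟩ := hR T
  have hy := h2y k
  have hs : ∑ i, sa T.1 i = 0 := ss_sum (uu T.1)
  obtain ⟨h2, h3, h4, h5, h6, h7, h8⟩ := eks hV (sa T.1) hs k
  have hE : (sg3 (sa T.1) k + ta3 (sa T.1) k) ^ 2 -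
      4 * sg4 (sa T.1) k * (sg2 (sa T.1) k - ta2 (sa T.1) k) = ek (sa T.1) 3 ^ 2 := by
    have h := chk_E (uu T.1) k
    rw [← e3_eq hV (uu T.1)] at h
    exact h
  have hcon := chk_con (ek (sa T.1)) (sg1 (sa T.1) k) (sg2 (sa T.1) k) (sg3 (sa T.1) k)
    (sg4 (sa T.1) k) (ta2 (sa T.1) k) (ta3 (sa T.1) k) (ta4 (sa T.1) k) (tt T) (yy T k)
    (kap (sa T.1) k) rfl h2 h3 h4 h5 h6 h7 h8
  have hz : tt T + (yy T k + (sg1 (sa T.1) k * sg2 (sa T.1) k - sg3 (sa T.1) k)) *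
      (yy T k + (sg1 (sa T.1) k * sg2 (sa T.1) k + ta3 (sa T.1) k)) +
      sg4 (sa T.1) k * (sg2 (sa T.1) k - ta2 (sa T.1) k) = 0 := by
    have h1 : 4 * (tt T + (yy T k + (sg1 (sa T.1) k * sg2 (sa T.1) k - sg3 (sa T.1) k)) *
      (yy T k + (sg1 (sa T.1) k * sg2 (sa T.1) k + ta3 (sa T.1) k)) +
      sg4 (sa T.1) k * (sg2 (sa T.1) k - ta2 (sa T.1) k)) = 0 := by
      have hg : zz T = 2 * yy T k + (2 * sg1 (sa T.1) k * sg2 (sa T.1) k - sg3 (sa T.1) k +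
        ta3 (sa T.1) k) := by
        rw [gg] at hy
        linarith
      rw [hg] at h4t
      linear_combination h4t - hE
    linarith
  rw [hz, mul_zero] at hcon
  exact hcon

theorem d19 {x : ℤ} (h : ((QQ.factorial : ℕ) : ℤ) ∣ x) : ((x : ℤ) : ZMod 19) = 0 := by
  rw [ZMod.intCast_zmod_eq_zero_iff_dvd]
  refine dvd_trans ?_ h
  exact_mod_cast (Nat.dvd_factorial (by norm_num) (by unfold QQ; norm_num) :
    19 ∣ Nat.factorial QQ)

theorem nz (hR : ST_REL) (T : Par) (k : Fin 4) :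
    kX (sa T.1) k (yy T k) * yy T k ≠ 0 ∧
    6 * (sa T.1 (rf k) ^ 2 * (kX (sa T.1) k (yy T k) * yy T k) -
      kY (sa T.1) k (yy T k) * yy T k) ≠ 0 := by
  obtain ⟨-, -, -, -, hs, -, hy, -⟩ := hR T
  have hs' : ∀ i, ((sa T.1 i : ℤ) : ZMod 19) = ((sb i : ℤ) : ZMod 19) := by
    intro i
    have := d19 (hs i)
    push_cast at this ⊢
    exact sub_eq_zero.1 this
  have hy' : ((yy T k : ℤ) : ZMod 19) = ((yb k : ℤ) : ZMod 19) := by
    have := d19 (hy k)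
    push_cast at this ⊢
    exact sub_eq_zero.1 this
  constructor
  · intro h0
    have h1 : ((kX (sa T.1) k (yy T k) * yy T k : ℤ) : ZMod 19) = 0 := by rw [h0]; simp
    simp only [kX, kap, sg1, sg2, sg3, sg4, c1, c2, c3, c4] at h1
    push_cast at h1
    simp only [hs', hy'] at h1
    revert h1
    clear hy' h0
    revert k
    decide
  · intro h0
    have h1 : ((6 * (sa T.1 (rf k) ^ 2 * (kX (sa T.1) k (yy T k) * yy T k) -
      kY (sa T.1) k (yy T k) * yy T k) : ℤ) : ZMod 19) = 0 := by rw [h0]; simp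
    simp only [kX, kY, kap, sg1, sg2, sg3, sg4, c1, c2, c3, c4] at h1
    push_cast at h1
    simp only [hs', hy'] at h1
    revert h1
    clear hy' h0
    revert k
    decide

end S67

open S67

theorem st_PTSB (hV : Pool.Helper17.R8.ST_VIE) (hC : ST_CUBP) (hR : ST_REL) : ST_PTSB := by
  intro T j hj
  obtain ⟨k, hk⟩ : ∃ k : Fin 4, (j : ℕ) = (k : ℕ) + 8 :=
    ⟨⟨(j : ℕ) - 8, by omega⟩, by simp; omega⟩
  have hk' : (⟨(j : ℕ) - 8, by omega⟩ : Fin 4) = k := by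
    apply Fin.ext
    simp
    omega
  obtain ⟨hnz1, hnz2⟩ := nz hR T k
  have hpv : pv T j = 6 * (sa T.1 (rf k) ^ 2 * (kX (sa T.1) k (yy T k) * yy T k) -
      kY (sa T.1) k (yy T k) * yy T k) := by
    unfold pv fv
    rw [dif_neg (by omega), if_neg (by omega)]
    simp only [hk']
  have hpx : px T j = 3 * xX (ek (sa T.1)) (tt T) (sa T.1 (rf k) ^ 2)
      (yv (ek (sa T.1)) (tt T) (sa T.1 (rf k))) (kY (sa T.1) k (yy T k) * yy T k)
      (kX (sa T.1) k (yy T k) * yy T k)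
      (wF (ek (sa T.1)) (tt T) (kX (sa T.1) k (yy T k)) (yy T k)
        (kY (sa T.1) k (yy T k))) := by
    unfold px fx
    rw [dif_neg (by omega), if_neg (by omega)]
    simp only [hk']
  obtain ⟨-, -, hA, hB, -⟩ := hR T
  refine ⟨by rw [hpv]; exact hnz2, ?_⟩
  rw [hpv, hpx]
  exact hC (ek (sa T.1)) (tt T) (cA T) (cB T) (sa T.1 (rf k)) (kX (sa T.1) k (yy T k)) (yy T k)
    (kY (sa T.1) k (yy T k)) hA hB (root hV (uu T.1) (rf k)) (FF_zero hV hR T k) hnz1 hnz2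

end Pool.Helper67.R12
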